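import Pool.Agent.H954R3.DUGroup

set_option autoImplicit false

/-!
# Asymptotic property C for direct unions of commensurated subgroups

Let `G` be a group with a proper left-invariant metric, the union of an increasing sequence of
subgroups `G_0 ≤ G_1 ≤ …` of finite asymptotic dimension, infinitely many of which are commensurated
in `G` (for instance normal in `G`).  Then `G` has asymptotic property C.  In fact for every `r`
there is `m` such that for every `R` the group is covered by a uniformly bounded `r`-disjoint family
and `m` uniformly bounded `R`-disjoint families.

Idea of the proof.  Let `H` be a commensurated subgroup of asymptotic dimension at most `n` that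
contains the ball of radius `r + 1`.  The relation of two cosets of `H` being close to a common coset
has finite degree, so the cosets have a finite colouring for which cosets close to a common coset
have different colours.  Each coset carries `k` bounded families, `k` large, such that every point
is in all but at most `n` of them (Kolmogorov's trick); the scale used in a coset depends on its
colour, and the scales grow quickly.  A coset then absorbs, for each index `i`, the pieces with
index `i` of the close cosets of smaller colour; the pieces stay bounded because the scales are far
apart.  After that, each point of `G` is close to the complements of at most `n` of the `k` families,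
all close cosets taken together.  Let the first family consist of the pieces of index `c` in the
cosets of colour `c`, for all colours `c`.  The set that is not covered is close to at most `n`
cosets at each point in a sense that allows one to cover it by `n * n * (n + 1)` families with
bounded coarse components.
-/

namespace Pool.Agent.Results.MP_2c6f0d_gt.CommensuratedUnion

universe u

open Pool.Agent.H954R3.DU

/-- Let `d` be a proper left-invariant metric on `G`, and let `K 0 ≤ K 1 ≤ …` be subgroups with
union `G`, each of finite asymptotic dimension, infinitely many of them commensurated in `G`.
Then `G` has asymptotic property C; moreover for every `r` there is `m` such that for every `R`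
there is a cover of `G` by an `r`-disjoint family and `m` families that are `R`-disjoint, all
uniformly bounded.  This applies in particular when infinitely many `K n` are normal in `G`. -/
theorem result {G : Type u} [Group G] (d : G → G → ℝ) (hd : ProperLeftInvariantMetric d)
    (K : ℕ → Subgroup G) (hmono : Monotone K) (hunion : ∀ g : G, ∃ n, g ∈ K n)
    (hasdim : ∀ n, ∃ k, AsdimLE (fun x y : K n => d x y) k) :
    ((∀ N, ∃ n, N ≤ n ∧ Commensurated (K n)) → TrasdimLEOmega d ∧ APC d) ∧
    ((∀ N, ∃ n, N ≤ n ∧ (K n).Normal) → TrasdimLEOmega d ∧ APC d) := by
  have main : (∀ N, ∃ n, N ≤ n ∧ Commensurated (K n)) → TrasdimLEOmega d := by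
    intro hc
    apply trasdim_of_commensurated hd
    intro F hF
    choose idx hidx using hunion
    obtain ⟨N, hN⟩ : ∃ N, ∀ g ∈ F, idx g ≤ N := by
      obtain ⟨N, hN⟩ := (hF.image idx).bddAbove
      exact ⟨N, fun g hg => hN (Set.mem_image_of_mem idx hg)⟩
    obtain ⟨n, hn, hcn⟩ := hc N
    exact ⟨K n, fun g hg => hmono ((hN g hg).trans hn) (hidx g), hcn, hasdim n⟩
  refine ⟨fun hc => ⟨main hc, (main hc).apc⟩, fun hc => ?_⟩
  have h : ∀ N, ∃ n, N ≤ n ∧ Commensurated (K n) := by
    intro N
    obtain ⟨n, hn, hnn⟩ := hc N
    have := hnn
    exact ⟨n, hn, commensurated_of_normal (K n)⟩
  exact ⟨main h, (main h).apc⟩

end Pool.Agent.Results.MP_2c6f0d_gt.CommensuratedUnion
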